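import Pool.Agent.Q61.FG.Pkg
import Pool.Agent.Q61.NF.Ext

/-!
# Cyclic covers of all curves over finitely generated fields, the extension varying
-/

set_option autoImplicit false
set_option maxHeartbeats 400000

namespace Pool.Agent.Q61.FG

open Pool.Agent.TH120.Sec Pool.Agent.Q61.NF Polynomial IsDedekindDomain NumberField WithZero
open Pool.Agent.W858.SF Pool.Agent.W620.SC Pool.Agent.TH377.LocG Pool.Agent.TH377.NC
open Pool.Agent.TH377.Sup (irr_of_map pol pol_map pol_leadingCoeff pol_natDegree GoodV good_iff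
  badV_card)

universe u v w x y

/-- no sections for all functions whose norm is `a yⁿ` -/
def NoSec {K : Type u} (E : Type x) [Field K] [Field E] [Algebra K E] [FiniteDimensional K E]
    (D : ℕ) (a : K) : Prop :=
  ∀ (L : Type y) [Field L] [Algebra K L] [FiniteDimensional K L],
    ¬ D ∣ Module.finrank K L → ∀ n : ℕ, 0 < n → D ∣ n →
      ∀ (F : Type v) (Ω : Type w) [Field F] [Field Ω] [Algebra L F] [Algebra F Ω] [Algebra L Ω]
        [Algebra K Ω] [IsScalarTower L F Ω] [IsScalarTower K L Ω] [IsAlgClosure F Ω]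
        (U : Set (ValuationSubring F)), (∀ O ∈ U, ∀ c : L, algebraMap L F c ∈ O) →
        ∀ (r : ℕ) (A : Fin r → E) (x : Fin r → F) (y : F), Cond Ω U n a A x y →
          IsEmpty (GSection L F Ω U)

/-- a discrete valuation ring gives the assertions -/
theorem noSec_of_dvr {K : Type u} [Field K] [CharZero K] {E : Type x} [Field E] [Algebra K E]
    [FiniteDimensional K E] {R : Type y} [CommRing R] [IsDomain R] [IsDiscreteValuationRing R]
    [Algebra R K] [IsFractionRing R K] (pb : PowerBasis K E) (g : R[X]) (hg : g.Monic)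
    (hgK : g.map (algebraMap R K) = minpoly K pb.gen)
    (hs : (g.map (IsLocalRing.residue R)).Separable) (D : ℕ) (hD : D ≠ 0)
    (hσ : FactorDiv (Nat.gcd 2 D * D) (g.map (IsLocalRing.residue R))) (ϖ0 t0 : R)
    (hϖ0 : Irreducible ϖ0) (ht0 : IsUnit t0) (m : ℤ) (hm1 : m = 1 ∨ m = -1) (a : K)
    (ha : a = algebraMap R K t0 * algebraMap R K ϖ0 ^ m) :
    NoSec.{u, v, w, x, y} E D a := by
  intro L _ _ _ hL0 n hn0 hDn F Ω _ _ _ _ _ _ _ _ _ U hU r A x y hC
  have hL : ¬ (D : ℤ) ∣ m * Module.finrank K L := by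
    intro h1
    apply hL0
    rcases hm1 with rfl | rfl
    · rw [one_mul] at h1
      exact_mod_cast h1
    · rw [neg_one_mul, Int.dvd_neg] at h1
      exact_mod_cast h1
  let _ : Algebra R L := ((algebraMap K L).comp (algebraMap R K)).toAlgebra
  have hstR : IsScalarTower R K L := IsScalarTower.of_algebraMap_eq (fun _ => rfl)
  obtain ⟨ℓ, hℓ0, hℓD, B, _, _, _, _, hfr, f, hf, hfK, hfs, hfd, ϖ, t, m', hϖ, ht, hm', hat⟩ :=
    dvr_data (k := K) (L := L) g hg hs D hD hσ ϖ0 t0 hϖ0 ht0 m hL
  have hfL : f.map (algebraMap B L) = (minpoly K pb.gen).map (algebraMap K L) := by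
    rw [hfK, ← hgK, Polynomial.map_map, ← IsScalarTower.algebraMap_eq R K L]
  have haL : algebraMap K L a = algebraMap B L t * algebraMap B L ϖ ^ m' := by
    rw [← hat, ha, map_mul, map_zpow₀]
    rfl
  exact of_data pb ℓ hℓ0 f hf hfL hfs hfd ϖ t m' hϖ ht hm' _ haL F Ω U hU n
    (hℓD.trans hDn) A x y hC

/-- the assertions for the vector of coefficients `c = (a, c₀, …, c_d)` -/
def GoodC {R : Type} [CommRing R] (k : Type) [Field k] [Algebra R k] (D : ℕ) {d : ℕ}
    (c : Fin (d + 2) → R) : Prop :=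
  algebraMap R k (c 0) ≠ 0 ∧ algebraMap R k (c (Fin.last d).succ) ≠ 0 ∧
    Irreducible (pol fun i : Fin (d + 1) => algebraMap R k (c i.succ)) ∧
    ∀ (E : Type x) [Field E] [Algebra k E] [FiniteDimensional k E] (θ : E),
      Algebra.adjoin k {θ} = ⊤ →
      aeval θ (pol fun i : Fin (d + 1) => algebraMap R k (c i.succ)) = 0 →
      NoSec.{0, v, w, x, 0} E D (algebraMap R k (c 0))

theorem crit_cov {R k : Type} [CommRing R] [Field k] [CharZero k] [Algebra R k]
    (d D : ℕ) (hd : 3 ≤ d) (hD : D ≠ 0) (hDd : Nat.gcd 2 D * D ∣ d) :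
    Crit R k (d + 2) (GoodC.{v, w, x} (R := R) k D) := by
  classical
  intro L _ _
  have hdr : (0 : ℝ) < d := by
    have : 0 < d := by omega
    exact_mod_cast this
  have hδ1 : (1 / (4 * d) : ℝ) ≤ 1 := by
    rw [div_le_one (by positivity)]
    have : (3 : ℝ) ≤ d := by exact_mod_cast hd
    linarith
  refine ⟨1 / (4 * d), fun _ => True, fun v => (GoodV v d)ᶜ, ?_, ?_, ?_⟩
  · intro D' hD' ε hε
    obtain ⟨T, hT, hTε⟩ := supply_split 2 Nat.prime_two D' hD' (1 / (4 * d)) (by positivity) hδ1 ε hε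
    exact ⟨T, fun v hv => ⟨(hT v hv).1, trivial⟩, hTε⟩
  · intro v _
    exact badV_card v d hd
  · intro v _ P ψ hnear c y hcy hgood
    rw [Set.notMem_compl_iff] at hgood
    obtain ⟨ha, ha', hirr⟩ := good_iff v d y hgood
    have hmax : v.asIdeal.IsMaximal := v.isMaximal
    let _ : Field (𝓞 L ⧸ v.asIdeal) := Ideal.Quotient.field _
    obtain ⟨B, hdvr, hfinB, j, κ, ϖ, t, n, hj, hκ, hϖ, ht, hn, hat⟩ :=
      near_dvr P v ψ hnear (c 0) (y 0) (hcy 0) ha ha'
    have hunit : ∀ b : B, κ (IsLocalRing.residue B b) ≠ 0 → IsUnit b := by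
      intro b hb
      by_contra hcon
      apply hb
      rw [(IsLocalRing.residue_eq_zero_iff _).2 ((IsLocalRing.mem_maximalIdeal _).2 hcon), map_zero]
    have hlast : IsUnit (j (c (Fin.last d).succ)) := hunit _ (by
      rw [hκ _ _ (hcy _)]
      intro h
      exact hirr.1 (Ideal.Quotient.eq_zero_iff_mem.1 h))
    have hlastk : algebraMap R k (c (Fin.last d).succ) ≠ 0 := by
      rw [← hj]
      intro h0
      exact hlast.ne_zero (Subtype.ext h0)
    have hϖ0 : (ϖ : k) ≠ 0 := fun h0 => hϖ.ne_zero (Subtype.ext h0)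
    have ht0 : (t : k) ≠ 0 := fun h0 => ht.ne_zero (Subtype.ext h0)
    have hk0 : algebraMap R k (c 0) ≠ 0 := by
      rw [hat]
      exact mul_ne_zero ht0 (zpow_ne_zero _ hϖ0)
    -- the polynomial
    set fB : B[X] := pol fun i : Fin (d + 1) => j (c i.succ) with hfB
    have hfBk : fB.map (algebraMap B k) = pol fun i : Fin (d + 1) => algebraMap R k (c i.succ) := by
      rw [hfB, pol_map]
      congr 1
      funext i
      exact hj _
    have hlc : fB.leadingCoeff = j (c (Fin.last d).succ) := pol_leadingCoeff _ hlast.ne_zero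
    have hdeg : fB.natDegree = d := pol_natDegree _ hlast.ne_zero
    have hfi : Irreducible (fB.map (IsLocalRing.residue B)) := by
      refine irr_of_map κ _ ?_
      have h1 : (fB.map (IsLocalRing.residue B)).map κ =
          pol fun i : Fin (d + 1) => Ideal.Quotient.mk v.asIdeal (y i.succ) := by
        rw [hfB, pol_map, pol_map]
        congr 1
        funext i
        exact hκ _ _ (hcy _)
      rw [h1]
      exact hirr.2
    obtain ⟨u, hu⟩ := hlast
    set g : B[X] := C ((u⁻¹ : Bˣ) : B) * fB with hg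
    have hgm : g.Monic := by
      rw [Monic, leadingCoeff_mul, leadingCoeff_C, hlc, ← hu, Units.inv_mul]
    have hgd : g.natDegree = d := by
      rw [hg, natDegree_C_mul (Units.ne_zero _), hdeg]
    have hgr : Irreducible (g.map (IsLocalRing.residue B)) := by
      rw [hg, Polynomial.map_mul, map_C]
      exact (irreducible_isUnit_mul (isUnit_C.2 ((u⁻¹).isUnit.map _))).2 hfi
    have hgirr : Irreducible g := Monic.irreducible_of_irreducible_map _ _ hgm hgr
    have hgk : Irreducible (g.map (algebraMap B k)) :=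
      (Monic.irreducible_iff_irreducible_map_fraction_map hgm).1 hgirr
    have hgk' : g.map (algebraMap B k) = C (algebraMap B k ((u⁻¹ : Bˣ) : B)) *
        pol fun i : Fin (d + 1) => algebraMap R k (c i.succ) := by
      rw [hg, Polynomial.map_mul, map_C, hfBk]
    refine ⟨hk0, hlastk, ?_, ?_⟩
    · rw [hgk'] at hgk
      exact (irreducible_isUnit_mul (isUnit_C.2 ((u⁻¹).isUnit.map _))).1 hgk
    · intro E _ _ _ θ hθ hroot
      have hint : IsIntegral k θ := Algebra.IsIntegral.isIntegral θ
      have hmin : g.map (algebraMap B k) = minpoly k θ := by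
        refine minpoly.eq_of_irreducible_of_monic hgk ?_ (hgm.map _)
        rw [hgk', map_mul, hroot, mul_zero]
      refine noSec_of_dvr (R := B) (PowerBasis.ofAdjoinEqTop hint hθ) g hgm
        (by rw [PowerBasis.ofAdjoinEqTop_gen]; exact hmin)
        (PerfectField.separable_of_irreducible hgr) D hD ?_ ϖ t hϖ ht n hn _ hat
      intro q hq hqg
      have h1 : Associated q (g.map (IsLocalRing.residue B)) :=
        (hq.dvd_irreducible_iff_associated hgr).1 hqg
      rw [Polynomial.natDegree_eq_of_degree_eq (Polynomial.degree_eq_degree_of_associated h1),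
        hgm.natDegree_map, hgd]
      exact hDd

/-- **Density zero over finitely generated fields.** -/
theorem density_cov {R k : Type} [CommRing R] [IsDomain R] [CharZero R] [Algebra.FiniteType ℤ R]
    [Field k] [Algebra R k] [IsFractionRing R k] (d D : ℕ) (hd : 3 ≤ d) (hD : D ≠ 0)
    (hDd : Nat.gcd 2 D * D ∣ d) (ε : ℝ) (hε : 0 < ε) :
    ∃ I : Ideal R, Finite (R ⧸ I) ∧
      (Set.ncard ((fun (c : Fin (d + 2) → R) i => Ideal.Quotient.mk I (c i)) ''
        {c | ¬ GoodC.{v, w, x} k D c}) : ℝ) ≤ ε * (Nat.card (R ⧸ I) : ℝ) ^ (d + 2) := by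
  have hcz : CharZero k := charZero_of_injective_algebraMap (IsFractionRing.injective R k)
  exact density_all (d + 2) _ (crit_cov d D hd hD hDd) ε hε

end Pool.Agent.Q61.FG
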