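import Pool.Agent.Q61.FG.Pkg
import Pool.Agent.Q61.GF.Num

/-!
# Diagonal curves over finitely generated fields
-/

set_option autoImplicit false
set_option maxHeartbeats 400000

namespace Pool.Agent.Q61.FG

open Pool.Agent.TH120.Sec Pool.Agent.Q61.GF Polynomial IsDedekindDomain NumberField WithZero
open Pool.Agent.W858.SF
open Pool.Agent.TH377.Sup (irr_of_map)

universe v w y

lemma irr_local {κ : Type} [Field κ] [Finite κ] (M D q e : ℕ) (hq : q.Prime)
    (h : (M = q ∧ D = q ∧ q ≠ 2) ∨ (M = 4 ∧ D = 2 ∧ q = 2)) (he : M = q ^ (e + 1))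
    (hv : q ^ (e + 1) ∣ Nat.card κ - 1) (β γ : κ) (hβ0 : β ≠ 0)
    (g4 : ∀ r : κ, β * r ^ q + γ ≠ 0) : Irreducible (X ^ M + C (γ / β) : κ[X]) := by
  have hnr : ∀ r : κ, r ^ q ≠ -(γ / β) := by
    intro r hr
    apply g4 r
    rw [hr]
    field_simp
    ring
  have h1 : (X ^ M + C (γ / β) : κ[X]) = X ^ M - C (-(γ / β)) := by
    rw [C_neg, sub_neg_eq_add]
  rw [h1]
  rcases h with ⟨e1, e2, e3⟩ | ⟨e1, e2, e3⟩
  · rw [e1]
    exact X_pow_sub_C_irreducible_of_prime hq hnr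
  · rw [e1]
    obtain ⟨i, hi⟩ : ∃ i : κ, i ^ 2 = -1 := by
      have hM4 : 4 ∣ Nat.card κ - 1 := by
        have : q ^ (e + 1) = 4 := he.symm.trans e1
        rwa [this] at hv
      have := Fintype.ofFinite κ
      have h5 : IsSquare (-1 : κ) := by
        rw [FiniteField.isSquare_neg_one_iff, ← Nat.card_eq_fintype_card]
        have hpos : 0 < Nat.card κ := Nat.card_pos
        omega
      obtain ⟨i, hi⟩ := h5
      exact ⟨i, by rw [sq]; exact hi.symm⟩
    refine irr_four _ i hi fun b => ?_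
    have := hnr b
    rwa [e3] at this

theorem crit_diag {R k : Type} [CommRing R] [Field k] [CharZero k] [Algebra R k]
    (M D q : ℕ) (hq : q.Prime) (h : (M = q ∧ D = q ∧ q ≠ 2) ∨ (M = 4 ∧ D = 2 ∧ q = 2)) :
    Crit R k 3 (fun f => algebraMap R k (f 0) ≠ 0 ∧ algebraMap R k (f 1) ≠ 0 ∧
      algebraMap R k (f 2) ≠ 0 ∧ Pool.Agent.Q61.GF.Empty.{0, v, w, y} M D (algebraMap R k (f 0))
        (algebraMap R k (f 1)) (algebraMap R k (f 2))) := by
  classical
  intro L _ _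
  obtain ⟨e, he⟩ : ∃ e, M = q ^ (e + 1) := by
    rcases h with ⟨h1, h2, h3⟩ | ⟨h1, h2, h3⟩
    · exact ⟨0, by rw [h1, zero_add, pow_one]⟩
    · exact ⟨1, by rw [h1, h3]; norm_num⟩
  have hMD : M = Nat.gcd 2 D * D := by
    rcases h with ⟨h1, h2, h3⟩ | ⟨h1, h2, h3⟩
    · have : Nat.gcd 2 q = 1 := (Nat.coprime_primes Nat.prime_two hq).2 (Ne.symm h3)
      rw [h1, h2, this, one_mul]
    · rw [h1, h2]
      norm_num
  have hD : D ≠ 0 := by
    rcases h with ⟨h1, h2, h3⟩ | ⟨h1, h2, h3⟩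
    · rw [h2]
      exact hq.ne_zero
    · rw [h2]
      norm_num
  refine ⟨1 / 8, fun v => (q : 𝓞 L) ∉ v.asIdeal ∧ q ^ (e + 1) ∣ Ideal.absNorm v.asIdeal - 1,
    fun v => (Good v q)ᶜ, ?_, ?_, ?_⟩
  · intro D' hD' ε hε
    obtain ⟨T, hT, hTε⟩ := supply_pp q e hq (D' * (q : 𝓞 L))
      (mul_ne_zero hD' (Nat.cast_ne_zero.2 hq.ne_zero)) (1 / 8) (by norm_num)
      (by norm_num) ε hε
    refine ⟨T, fun v hv => ⟨fun h1 => (hT v hv).1 (Ideal.mul_mem_right _ _ h1),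
      fun h1 => (hT v hv).1 (Ideal.mul_mem_left _ _ h1), (hT v hv).2⟩, hTε⟩
  · intro v hv
    exact bad_card v q hq ((dvd_pow_self q (Nat.succ_ne_zero e)).trans hv.2)
  · rintro v ⟨hqv, hv⟩ P ψ hnear f y hfy hgood
    rw [Set.notMem_compl_iff] at hgood
    obtain ⟨g1, g2, g3, g4⟩ := hgood
    have hmax : v.asIdeal.IsMaximal := v.isMaximal
    let _ : Field (𝓞 L ⧸ v.asIdeal) := Ideal.Quotient.field _
    have hfinq : Finite (𝓞 L ⧸ v.asIdeal) := Ideal.finiteQuotientOfFreeOfNeBot _ v.ne_bot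
    have ha : y 0 ∈ v.asIdeal := Ideal.Quotient.eq_zero_iff_mem.1 g1
    have ha' : y 0 ∉ v.asIdeal ^ 2 := fun h => g2 (Ideal.Quotient.eq_zero_iff_mem.2 h)
    obtain ⟨B, hdvr, hfinB, j, κ, ϖ, t, n, hj, hκ, hϖ, ht, hn, hat⟩ :=
      near_dvr P v ψ hnear (f 0) (y 0) (hfy 0) ha ha'
    set β : 𝓞 L ⧸ v.asIdeal := Ideal.Quotient.mk v.asIdeal (y 1) with hβ
    set γ : 𝓞 L ⧸ v.asIdeal := Ideal.Quotient.mk v.asIdeal (y 2) with hγ
    have hβ0 : β ≠ 0 := g3
    have g4' : ∀ r : 𝓞 L ⧸ v.asIdeal, β * r ^ q + γ ≠ 0 := g4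
    have hγ0 : γ ≠ 0 := by
      have := g4' 0
      rwa [zero_pow hq.ne_zero, mul_zero, zero_add] at this
    have hunit : ∀ b : B, κ (IsLocalRing.residue B b) ≠ 0 → IsUnit b := by
      intro b hb
      by_contra hcon
      apply hb
      rw [(IsLocalRing.residue_eq_zero_iff _).2 ((IsLocalRing.mem_maximalIdeal _).2 hcon), map_zero]
    have hu1 : IsUnit (j (f 1)) := hunit _ (by rw [hκ _ _ (hfy 1)]; exact hβ0)
    have hu2 : IsUnit (j (f 2)) := hunit _ (by rw [hκ _ _ (hfy 2)]; exact hγ0)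
    have hk1 : algebraMap R k (f 1) ≠ 0 := by
      rw [← hj]
      intro h0
      exact hu1.ne_zero (Subtype.ext h0)
    have hk2 : algebraMap R k (f 2) ≠ 0 := by
      rw [← hj]
      intro h0
      exact hu2.ne_zero (Subtype.ext h0)
    have hϖ0 : (ϖ : k) ≠ 0 := fun h0 => hϖ.ne_zero (Subtype.ext h0)
    have ht0 : (t : k) ≠ 0 := fun h0 => ht.ne_zero (Subtype.ext h0)
    have hk0 : algebraMap R k (f 0) ≠ 0 := by
      rw [hat]
      exact mul_ne_zero ht0 (zpow_ne_zero _ hϖ0)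
    obtain ⟨β', hβ'⟩ := hu1
    -- the residue of `c / b`
    set s : B := j (f 2) * ((β'⁻¹ : Bˣ) : B) with hs
    have hβk : ((((β'⁻¹ : Bˣ) : B)) : k) = (algebraMap R k (f 1))⁻¹ := by
      apply eq_inv_of_mul_eq_one_left
      rw [← hj, ← hβ']
      have h1 : (((β'⁻¹ : Bˣ) : B)) * ((β' : Bˣ) : B) = 1 := Units.inv_mul _
      exact congrArg Subtype.val h1
    have hsk : algebraMap B k s = algebraMap R k (f 2) / algebraMap R k (f 1) := by
      change ((s : B) : k) = _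
      rw [div_eq_mul_inv, ← hβk, ← hj]
      rfl
    have hκs : κ (IsLocalRing.residue B s) = γ / β := by
      rw [eq_div_iff hβ0, hβ, ← hκ _ _ (hfy 1), ← map_mul, ← map_mul, hs, mul_assoc, ← hβ',
        Units.inv_mul, mul_one]
      exact hκ _ _ (hfy 2)
    have hirr0 : Irreducible (X ^ M + C (γ / β) : (𝓞 L ⧸ v.asIdeal)[X]) :=
      irr_local M D q e hq h he (by rw [card_residue]; exact hv) β γ hβ0 g4'
    have hirr : Irreducible ((X ^ M + C s : B[X]).map (IsLocalRing.residue B)) := by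
      refine irr_of_map κ _ ?_
      rw [Polynomial.map_add, Polynomial.map_pow, map_X, map_C, Polynomial.map_add,
        Polynomial.map_pow, map_X, map_C, hκs]
      exact hirr0
    have hsep : ((X ^ M + C s : B[X]).map (IsLocalRing.residue B)).Separable :=
      PerfectField.separable_of_irreducible hirr
    refine ⟨hk0, hk1, hk2, ?_⟩
    intro L' _ _ _ hL'
    refine diag_of_dvr (R := B) M D hMD hD s hirr hsep ϖ (-(t * ((β'⁻¹ : Bˣ) : B))) hϖ
      ((ht.mul (Units.isUnit _)).neg) n _ _ _ hk1 hsk ?_ (L := L') ?_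
    · change _ = ((-(t * ((β'⁻¹ : Bˣ) : B)) : B) : k) * ((ϖ : B) : k) ^ n
      have h1 : ((-(t * ((β'⁻¹ : Bˣ) : B)) : B) : k) = -((t : k) * (algebraMap R k (f 1))⁻¹) := by
        rw [← hβk]
        rfl
      rw [h1, hat]
      ring
    · intro h1
      apply hL'
      rcases hn with rfl | rfl
      · rw [one_mul] at h1
        exact_mod_cast h1
      · rw [neg_one_mul, Int.dvd_neg] at h1
        exact_mod_cast h1

/-- **Density zero over finitely generated fields.** -/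
theorem density_diag {R k : Type} [CommRing R] [IsDomain R] [CharZero R] [Algebra.FiniteType ℤ R]
    [Field k] [Algebra R k] [IsFractionRing R k] (M D q : ℕ) (hq : q.Prime)
    (h : (M = q ∧ D = q ∧ q ≠ 2) ∨ (M = 4 ∧ D = 2 ∧ q = 2)) (ε : ℝ) (hε : 0 < ε) :
    ∃ I : Ideal R, Finite (R ⧸ I) ∧
      (Set.ncard ((fun (c : Fin 3 → R) i => Ideal.Quotient.mk I (c i)) ''
        {f | ¬ (algebraMap R k (f 0) ≠ 0 ∧ algebraMap R k (f 1) ≠ 0 ∧
      algebraMap R k (f 2) ≠ 0 ∧ Pool.Agent.Q61.GF.Empty.{0, v, w, y} M D (algebraMap R k (f 0))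
        (algebraMap R k (f 1)) (algebraMap R k (f 2)))}) : ℝ) ≤
        ε * (Nat.card (R ⧸ I) : ℝ) ^ 3 := by
  have hcz : CharZero k := charZero_of_injective_algebraMap (IsFractionRing.injective R k)
  exact density_all 3 _ (crit_diag M D q hq h) ε hε

end Pool.Agent.Q61.FG
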