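import Pool.Agent.Q61.FG.Dens

/-!
# The discrete valuation ring attached to an embedding into a completion
-/

set_option autoImplicit false
set_option maxHeartbeats 400000

namespace Pool.Agent.Q61.FG

open Polynomial WithZero NumberField IsDedekindDomain Pool.Agent.W858.SF Pool.Agent.TH377.Sup

/-- **The package.** -/
theorem near_dvr {R k : Type} [CommRing R] [Field k] [Algebra R k]
    {L : Type} [Field L] [NumberField L] (P : R →+* L) (v : HeightOneSpectrum (𝓞 L))
    (ψ : k →+* v.adicCompletion L) (hnear : Near P v ψ) (c0 : R) (y0 : 𝓞 L)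
    (hc : v.valuation L (P c0 - algebraMap (𝓞 L) L y0) ≤ exp (-2))
    (hy : y0 ∈ v.asIdeal) (hy' : y0 ∉ v.asIdeal ^ 2) :
    ∃ (B : ValuationSubring k) (_ : IsDiscreteValuationRing B)
      (_ : Finite (IsLocalRing.ResidueField B)) (j : R →+* B)
      (κ : IsLocalRing.ResidueField B →+* 𝓞 L ⧸ v.asIdeal) (ϖ t : B) (n : ℤ),
      (∀ r, ((j r : B) : k) = algebraMap R k r) ∧
      (∀ (r : R) (y : 𝓞 L), v.valuation L (P r - algebraMap (𝓞 L) L y) ≤ exp (-2) →
        κ (IsLocalRing.residue B (j r)) = Ideal.Quotient.mk v.asIdeal y) ∧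
      Irreducible ϖ ∧ IsUnit t ∧ (n = 1 ∨ n = -1) ∧ algebraMap R k c0 = (t : k) * (ϖ : k) ^ n := by
  classical
  obtain ⟨hPint, hψ⟩ := hnear
  have hfinres := finite_residue v
  have hmax : v.asIdeal.IsMaximal := v.isMaximal
  let _ := Ideal.Quotient.field v.asIdeal
  obtain ⟨θ, hθ, hθr⟩ := exists_residue_map v
  have hθinj : Function.Injective θ := θ.injective
  have hγ2 : (exp (-2) : ℤᵐ⁰) < 1 := by
    rw [← exp_zero, exp_lt_exp]
    omega
  have hPv : ∀ r, vv v (algebraMap L (v.adicCompletion L) (P r)) ≤ 1 := fun r => by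
    rw [vv_algebraMap]
    exact hPint r
  have hψ1 : ∀ r, vv v (ψ (algebraMap R k r)) ≤ 1 := by
    intro r
    have h1 : ψ (algebraMap R k r) = (ψ (algebraMap R k r) -
      algebraMap L (v.adicCompletion L) (P r)) + algebraMap L (v.adicCompletion L) (P r) := by ring
    rw [h1]
    exact (Valuation.map_add _ _ _).trans (max_le ((hψ r).trans hγ2.le) (hPv r))
  have hnear : ∀ (r : R) (y : 𝓞 L), v.valuation L (P r - algebraMap (𝓞 L) L y) ≤ exp (-2) →
      vv v (ψ (algebraMap R k r) -
      algebraMap L (v.adicCompletion L) (algebraMap (𝓞 L) L y)) ≤ exp (-2) := by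
    intro r y hry
    have h1 : ψ (algebraMap R k r) -
        algebraMap L (v.adicCompletion L) (algebraMap (𝓞 L) L y) =
        (ψ (algebraMap R k r) - algebraMap L (v.adicCompletion L) (P r)) +
        algebraMap L (v.adicCompletion L) (P r - algebraMap (𝓞 L) L y) := by
      rw [map_sub]
      ring
    rw [h1]
    refine (Valuation.map_add _ _ _).trans (max_le (hψ _) ?_)
    rw [vv_algebraMap]
    exact hry
  have ha : vv v (ψ (algebraMap R k c0)) = exp (-1) := by
    have h5 : ψ (algebraMap R k c0) = (ψ (algebraMap R k c0) -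
      algebraMap L (v.adicCompletion L) (algebraMap (𝓞 L) L y0)) +
      algebraMap L (v.adicCompletion L) (algebraMap (𝓞 L) L y0) := by ring
    have h7 := val_eq_of v y0 hy hy'
    have h6 : vv v (ψ (algebraMap R k c0) - algebraMap L (v.adicCompletion L)
        (algebraMap (𝓞 L) L y0)) <
        vv v (algebraMap L (v.adicCompletion L) (algebraMap (𝓞 L) L y0)) := by
      rw [vv_algebraMap, h7]
      refine (hnear c0 y0 hc).trans_lt ?_
      rw [exp_lt_exp]
      omega
    rw [h5, Valuation.map_add_eq_of_lt_right _ h6, vv_algebraMap, h7]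
  -- the valuation ring
  obtain ⟨hdvr, ϖ, t, n, hϖ, ht, hn, hat⟩ := exists_unif ((vv v).comap ψ) (algebraMap R k c0) (-1)
    (by decide) ha
  let i : ((vv v).comap ψ).valuationSubring →+* (vv v).valuationSubring :=
    { toFun := fun y => ⟨ψ y, y.2⟩
      map_one' := Subtype.ext (map_one ψ)
      map_mul' := fun y z => Subtype.ext (map_mul ψ _ _)
      map_zero' := Subtype.ext (map_zero ψ)
      map_add' := fun y z => Subtype.ext (map_add ψ _ _) }
  have hcoe : ∀ y, ((i y : (vv v).valuationSubring) : v.adicCompletion L) = ψ (y : k) := fun _ => rfl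
  have hloc : IsLocalHom i := by
    refine ⟨fun y hy => ?_⟩
    have h1 := (Valuation.Integers.isUnit_iff_valuation_eq_one
      (Valuation.valuationSubring.integers (vv v))).1 hy
    exact (Valuation.Integers.isUnit_iff_valuation_eq_one
      (Valuation.valuationSubring.integers ((vv v).comap ψ))).2 h1
  have hfin : Finite (IsLocalRing.ResidueField ((vv v).comap ψ).valuationSubring) :=
    Finite.of_injective _ (IsLocalRing.ResidueField.map i).injective
  let j : R →+* ((vv v).comap ψ).valuationSubring :=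
    { toFun := fun r => ⟨algebraMap R k r, hψ1 r⟩
      map_one' := Subtype.ext (map_one _)
      map_mul' := fun y z => Subtype.ext (map_mul _ _ _)
      map_zero' := Subtype.ext (map_zero _)
      map_add' := fun y z => Subtype.ext (map_add _ _ _) }
  let e := RingEquiv.ofBijective θ ⟨hθinj, hθ⟩
  have hn1 : n = 1 ∨ n = -1 := by
    have e1 : vv v (ψ (t : k)) = 1 := (Valuation.Integers.isUnit_iff_valuation_eq_one
      (Valuation.valuationSubring.integers ((vv v).comap ψ))).1 ht
    have e2 : ψ (ϖ : k) ≠ 0 := by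
      rw [Ne, map_eq_zero]
      intro h
      exact hϖ.ne_zero (Subtype.ext h)
    have e3 : vv v (ψ (ϖ : k)) = exp (log (vv v (ψ (ϖ : k)))) :=
      (exp_log ((Valuation.ne_zero_iff (vv v)).2 e2)).symm
    have e4 : vv v (ψ (algebraMap R k c0)) = exp (n * log (vv v (ψ (ϖ : k)))) := by
      rw [hat, map_mul, map_mul, map_zpow₀, map_zpow₀, e1, one_mul]
      conv_lhs => rw [e3]
      rw [← exp_zsmul, smul_eq_mul]
    rw [ha, exp_inj] at e4
    have e5 : IsUnit n := by
      refine IsUnit.of_mul_eq_one (-log (vv v (ψ (ϖ : k)))) ?_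
      rw [mul_neg, ← e4]
      norm_num
    exact Int.isUnit_iff.1 e5
  refine ⟨((vv v).comap ψ).valuationSubring, hdvr, hfin, j,
    (e.symm : _ →+* _).comp (IsLocalRing.ResidueField.map i), ϖ, t, n, fun r => rfl, ?_, hϖ, ht,
    hn1, hat⟩
  intro r y hry
  change e.symm (IsLocalRing.ResidueField.map i (IsLocalRing.residue _ (j r))) = _
  rw [RingEquiv.symm_apply_eq]
  change IsLocalRing.residue _ (i (j r)) = θ _
  exact hθr _ _ ((hnear r y hry).trans_lt hγ2)

end Pool.Agent.Q61.FG
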